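import Pool.Agent.N976.AX.Main
import Pool.Agent.N976.AX.A1
import Pool.Agent.N976.BM.Bmo

/-!
# Blow-up with bounded norm in `BMO⁻¹` under sparse workless constraints

We consider the Navier-Stokes equations on `ℝ³` with the exact nonlinearity, pressure and
viscosity, under linear constraints `∫ u(t,y) · r_i(y) dy = 0` imposed through their reaction
forces (d'Alembert's principle): `∂ₜu + (u·∇)u - νΔu + ∇p = Σ λ_i(t) r_i`. The reaction forces do no
work, the energy identity holds and classical solutions are unique. The constraint fields are four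
fixed `C^∞` fields supported in the unit ball, all their dilates `r_k(R^n y)`, `n ≥ 0`, and one more
field: at most `5 + 4 log N / log R` fields at the frequencies up to `N`, and `R` is as large as we
want. For every viscosity there is a `C^∞` datum supported in the unit ball (axisymmetric, with
swirl) with a `C^∞` solution which blows up in finite time, while its norm in `BMO⁻¹` (that is, the
norm of its vector potential in `BMO`) stays bounded up to the time of blow-up.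

The norm in `BMO⁻¹` is defined through the caloric extension (Koch and Tataru).
-/

open Set MeasureTheory
open scoped ContDiff

namespace Pool.Agent.Results.MP_b43f02_an.SparseConstraints

/-- The space `ℝ³`. -/
abbrev E3 := EuclideanSpace ℝ (Fin 3)

/-- The standard basis. -/
noncomputable def bv (i : Fin 3) : E3 := EuclideanSpace.single i 1

/-- The divergence `div v`. -/
noncomputable def divg (v : E3 → E3) (y : E3) : ℝ := ∑ i : Fin 3, (fderiv ℝ v y (bv i)) i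

/-- The field `(a · ∇) b`. -/
noncomputable def adv (a b : E3 → E3) (y : E3) : E3 := fderiv ℝ b y (a y)

/-- The Laplacian `Δ v`. -/
noncomputable def lap (v : E3 → E3) (y : E3) : E3 :=
  ∑ i : Fin 3, fderiv ℝ (fun z => fderiv ℝ v z (bv i)) y (bv i)

/-- `∫ v · w`. -/
noncomputable def ip (v w : E3 → E3) : ℝ := ∫ y, inner ℝ (v y) (w y)

/-- `∫ |∇v|²`. -/
noncomputable def dir (v : E3 → E3) : ℝ := ∫ y, ∑ i : Fin 3, ‖fderiv ℝ v y (bv i)‖ ^ 2

/-- The time derivative `∂ₜ u` on `[0, T)` (one-sided at `t = 0`). -/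
noncomputable def dt (T : ℝ) (u : ℝ → E3 → E3) (t : ℝ) (y : E3) : E3 :=
  derivWithin (fun τ => u τ y) (Ico 0 T) t

/-- `|v|, |Dv|, |D²v| ≤ M (1 + |y|)⁻²`. -/
structure Dec (M : ℝ) (v : E3 → E3) : Prop where
  d0 : ∀ y, (1 + ‖y‖) ^ 2 * ‖v y‖ ≤ M
  d1 : ∀ y, (1 + ‖y‖) ^ 2 * ‖fderiv ℝ v y‖ ≤ M
  d2 : ∀ y i j, (1 + ‖y‖) ^ 2 * ‖fderiv ℝ (fun z => fderiv ℝ v z (bv i)) y (bv j)‖ ≤ M

/-- Smooth divergence-free fields, which decay together with two derivatives. -/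
structure Fld (v : E3 → E3) : Prop where
  smooth : ContDiff ℝ ∞ v
  div : ∀ y, divg v y = 0
  dec : ∃ M, Dec M v

/-- `∂ₜu + (u·∇)u - νΔu` at the time `t`. -/
noncomputable def res (ν T : ℝ) (u : ℝ → E3 → E3) (t : ℝ) (y : E3) : E3 :=
  dt T u t y + adv (u t) (u t) y - ν • lap (u t) y

/-- Classical solutions on `[0, T)` of the Navier-Stokes equations with viscosity `ν` under the
constraints `∫ u(t) · r i = 0`: the left-hand side `∂ₜu + (u·∇)u - νΔu` is orthogonal to every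
smooth decaying divergence-free field which satisfies the constraints. -/
structure Sol {ι : Type} (ν : ℝ) (r : ι → E3 → E3) (T : ℝ) (u : ℝ → E3 → E3) : Prop where
  c1 : ContDiffOn ℝ 1 (fun z : ℝ × E3 => u z.1 z.2) (Ico 0 T ×ˢ univ)
  smooth : ∀ t ∈ Ico 0 T, ContDiff ℝ ∞ (u t)
  div : ∀ t ∈ Ico 0 T, ∀ y, divg (u t) y = 0
  dec : ∀ T' < T, ∃ M, ∀ t ∈ Icc 0 T', Dec M (u t) ∧ ∀ y, (1 + ‖y‖) ^ 2 * ‖dt T u t y‖ ≤ M
  con : ∀ t ∈ Ico 0 T, ∀ i, ip (u t) (r i) = 0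
  eqn : ∀ t ∈ Ico 0 T, ∀ w, Fld w → (∀ i, ip w (r i) = 0) → ip (res ν T u t) w = 0

/-- The constraint fields: `r0`, and the dilates `r k (R^n y)`, `n ≥ 0`, of four fields. -/
noncomputable def fld (R : ℝ) (r0 : E3 → E3) (r : Fin 4 → E3 → E3) :
    Option (Fin 4 × ℕ) → E3 → E3
  | none => r0
  | some p => fun y => r p.1 (R ^ p.2 • y)

/-- The field is `C^∞` and vanishes for `|y| ≥ 1`. -/
def Loc (v : E3 → E3) : Prop := ContDiff ℝ ∞ v ∧ ∀ y, 1 ≤ ‖y‖ → v y = 0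

/-- The residual `∂ₜu + (u·∇)u - νΔu` is the sum of the reaction forces `l i (t) r i`; the
coefficients are continuous in time and rapidly decreasing in the scale. -/
structure Reaction (ν R : ℝ) (r0 : E3 → E3) (r : Fin 4 → E3 → E3) (T : ℝ) (u : ℝ → E3 → E3)
    (l : Option (Fin 4 × ℕ) → ℝ → ℝ) : Prop where
  cont : ∀ i, ContinuousOn (l i) (Ico 0 T)
  rapid : ∀ k : ℕ, ∀ T' < T, ∃ M, ∀ t ∈ Icc 0 T', ∀ i n, R ^ (k * n) * |l (some (i, n)) t| ≤ M
  sum : ∀ t ∈ Ico 0 T, ∀ y, HasSum (fun i => l i t • fld R r0 r i y) (res ν T u t y)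

/-- The rotation by the angle `α` about the third axis. -/
noncomputable def rot (α : ℝ) (y : E3) : E3 :=
  WithLp.toLp 2 ![Real.cos α * y 0 - Real.sin α * y 1, Real.sin α * y 0 + Real.cos α * y 1, y 2]

/-- Axisymmetric fields. -/
def Axi (v : E3 → E3) : Prop := ∀ (α : ℝ) (y : E3), v (rot α y) = rot α (v y)

/-- The caloric extension `exp (sΔ) w`, the convolution of `w` with the heat kernel. -/
noncomputable def heat (s : ℝ) (w : E3 → E3) (y : E3) : E3 :=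
  ∫ z, ((4 * Real.pi * s) ^ (-(3 / 2) : ℝ) * Real.exp (-(‖z‖ ^ 2 / (4 * s)))) • w (y - z)

/-- The norm of `w` in `BMO⁻¹`, the supremum over all balls `B(x, ρ)` of
`(ρ⁻³ ∫_0^{ρ²} ∫_{B(x, ρ)} |exp (sΔ) w|² dy ds)^(1/2)`, is at most `X`. -/
def BMOInv (X : ℝ) (w : E3 → E3) : Prop := ∀ (x : E3) (ρ : ℝ), 0 < ρ →
  ∫⁻ s in Ioo 0 (ρ ^ 2), ∫⁻ y in Metric.ball x ρ, ‖heat s w y‖ₑ ^ 2 ≤
    ENNReal.ofReal (X ^ 2 * ρ ^ 3)

/-- For every `R₀` there are `R ≥ R₀` and `C^∞` axisymmetric fields `P`, `r0`, `r k`, `k < 4`, vanishing for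
`|y| ≥ 1`, with `div P = 0`, such that for every viscosity `ν > 0` the Navier-Stokes equations
under the constraints `∫ u · r0 = 0`, `∫ u(y) · r k (R^n y) dy = 0`, `k < 4`, `n ≥ 0`, have a
classical solution `u` with `u(0) = ν P` on `[0, T) × ℝ³`, `T < ∞`, such that
* `u(t)` is axisymmetric;
* `u` is `C^∞` in `(t, y)` on `[0, T) × ℝ³` and vanishes for `|y| ≥ 1`;
* `∂ₜu + (u·∇)u - νΔu = l(t) r0(y) + ∑ l_{k,n}(t) r_k(R^n y)` with `l_{k,n}` continuous and rapidly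
  decreasing in `n` (the reaction forces; the pressure is zero);
* `T` is the maximal time of existence: a classical solution on any `[0, T')` with the same
  initial values has `T' ≤ T` and agrees with `u`;
* the energy identity holds: the constraints do no work;
* `u` is unbounded, but the norm of `u(t)` in `BMO⁻¹` is bounded on `[0, T)`. -/
theorem result (R₀ : ℝ) :
    ∃ (R : ℝ) (P r0 : E3 → E3) (r : Fin 4 → E3 → E3), R₀ ≤ R ∧ 1 < R ∧
      Loc P ∧ (∀ y, divg P y = 0) ∧ Loc r0 ∧ (∀ k, Loc (r k)) ∧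
      Axi P ∧ Axi r0 ∧ (∀ k, Axi (r k)) ∧
      ∀ ν : ℝ, 0 < ν → ∃ (T : ℝ) (u : ℝ → E3 → E3) (l : Option (Fin 4 × ℕ) → ℝ → ℝ),
        0 < T ∧ Sol ν (fld R r0 r) T u ∧
        (∀ y, u 0 y = ν • P y) ∧ (∀ t ∈ Ico 0 T, Axi (u t)) ∧
        ContDiffOn ℝ ∞ (fun z : ℝ × E3 => u z.1 z.2) (Ico 0 T ×ˢ univ) ∧
        (∀ t ∈ Ico 0 T, ∀ y, 1 ≤ ‖y‖ → u t y = 0) ∧
        Reaction ν R r0 r T u l ∧
        (∀ (T' : ℝ) (v : ℝ → E3 → E3), 0 < T' → Sol ν (fld R r0 r) T' v → v 0 = u 0 →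
          T' ≤ T ∧ ∀ t ∈ Ico 0 T', v t = u t) ∧
        (ContinuousOn (fun t => ip (u t) (u t)) (Ico 0 T) ∧
          ∀ t ∈ Ioo 0 T, HasDerivAt (fun τ => ip (u τ) (u τ)) (-(2 * (ν * dir (u t)))) t) ∧
        (∀ M : ℝ, ∃ t ∈ Ico 0 T, ∃ y, M < ‖u t y‖) ∧
        ∃ X : ℝ, ∀ t ∈ Ico 0 T, BMOInv X (u t) := by
  have eD : ∀ (M : ℝ) (v : E3 → E3), Pool.Agent.N976.SC.Dec M v ↔ Dec M v :=
    fun M v => ⟨fun h => ⟨h.d0, h.d1, h.d2⟩, fun h => ⟨h.d0, h.d1, h.d2⟩⟩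
  have eF : ∀ v : E3 → E3, Pool.Agent.N976.SC.Fld v ↔ Fld v := fun v =>
    ⟨fun h => ⟨h.smooth, h.div, by obtain ⟨M, hM⟩ := h.dec; exact ⟨M, (eD M v).1 hM⟩⟩,
      fun h => ⟨h.smooth, h.div, by obtain ⟨M, hM⟩ := h.dec; exact ⟨M, (eD M v).2 hM⟩⟩⟩
  have eR : ∀ (R : ℝ) (r0 : E3 → E3) (r : Fin 4 → E3 → E3),
      Pool.Agent.N976.SC.fld R r0 r = fld R r0 r := by
    intro R r0 r
    ext1 i
    rcases i with _ | p <;> rfl
  have eS : ∀ (R : ℝ) (r0 : E3 → E3) (r : Fin 4 → E3 → E3) (ν T : ℝ) (u : ℝ → E3 → E3),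
      Pool.Agent.N976.SC.Sol ν (Pool.Agent.N976.SC.fld R r0 r) T u ↔ Sol ν (fld R r0 r) T u := by
    intro R r0 r ν T u
    rw [eR]
    constructor
    · intro h
      exact ⟨h.c1, h.smooth, h.div, fun T' hT' => by
        obtain ⟨M, hM⟩ := h.dec T' hT'
        exact ⟨M, fun t ht => ⟨(eD M _).1 (hM t ht).1, (hM t ht).2⟩⟩, h.con,
        fun t ht w hw hc => h.eqn t ht w ((eF w).2 hw) hc⟩
    · intro h
      exact ⟨h.c1, h.smooth, h.div, fun T' hT' => by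
        obtain ⟨M, hM⟩ := h.dec T' hT'
        exact ⟨M, fun t ht => ⟨(eD M _).2 (hM t ht).1, (hM t ht).2⟩⟩, h.con,
        fun t ht w hw hc => h.eqn t ht w ((eF w).1 hw) hc⟩
  obtain ⟨R, P, r0, r, hR, hR1, hP, hdP, hPo, hr0, hr0o, hr, ⟨a1, a2, a3, a4⟩, h⟩ :=
    Pool.Agent.N976.AX.main Pool.Agent.N976.AX.A1.t_PK R₀
  refine ⟨R, P, r0, r, hR, hR1, ⟨hP, hPo⟩, hdP, ⟨hr0, hr0o⟩, hr, a1, a2, a3, fun ν hν => ?_⟩
  obtain ⟨T, u, l, hT, hSol, hu0, hax, hsm, huo, l1, l2, l3, huni, hen, hbl, hdi, hti⟩ := h ν hν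
  refine ⟨T, u, l, hT, (eS R r0 r ν T u).1 hSol, hu0, hax, hsm, huo, ⟨l1, l2, ?_⟩, ?_, hen, hbl, ?_⟩
  · intro t ht y
    rw [← eR]
    exact l3 t ht y
  · intro T' v hT' hv hv0
    exact huni T' v hT' ((eS R r0 r ν T' v).2 hv) hv0
  · obtain ⟨X, hX⟩ := hti
    refine ⟨√(4 * Pool.Agent.N976.BM.vb) * X, fun t ht x ρ hρ => ?_⟩
    have hc : Continuous (u t) := (hSol.smooth t ht).continuous
    have hb : ∀ y, ‖y‖ * ‖u t y‖ ≤ X := fun y => by
      refine le_trans ?_ (hX t ht y)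
      have := Real.sqrt_nonneg (T - t)
      gcongr
      linarith
    have h := Pool.Agent.N976.BM.bmo hc hb x hρ
    rw [mul_pow, Real.sq_sqrt (by have := Pool.Agent.N976.BM.vb_nonneg; positivity)]
    exact h

end Pool.Agent.Results.MP_b43f02_an.SparseConstraints
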